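import Mathlib

set_option autoImplicit false

namespace Pool.Agent.H83.DR

open MeasureTheory Filter Topology Set

lemma norm_exp_one (g t : ℝ) : ‖Complex.exp (2 * Complex.I * g * t)‖ = 1 := by
  have : (2 * Complex.I * g * t : ℂ) = ((2 * g * t : ℝ) : ℂ) * Complex.I := by
    push_cast
    ring
  rw [this, Complex.norm_exp_ofReal_mul_I]

lemma strict (E : Set ℝ) (hV : volume E ≠ ⊤) (hp : 0 < volume E) (g : ℝ) (hg : 1 ≤ g) :
    ‖∫ t in E, Complex.exp (2 * Complex.I * g * t)‖ < (volume E).toReal := by
  have : IsFiniteMeasure (volume.restrict E) := ⟨by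
    rw [Measure.restrict_apply_univ]
    exact hV.lt_top⟩
  have h := ae_eq_const_or_norm_integral_lt_of_norm_le_const (μ := volume.restrict E)
    (f := fun t : ℝ => Complex.exp (2 * Complex.I * g * t)) (C := 1)
    (Eventually.of_forall fun t => (norm_exp_one g t).le)
  rcases h with h | h
  · exfalso
    set c : ℂ := ⨍ x in E, Complex.exp (2 * Complex.I * g * x) with hc
    have hcount : {t : ℝ | Complex.exp (2 * Complex.I * g * t) = c}.Countable := by
      rcases eq_empty_or_nonempty {t : ℝ | Complex.exp (2 * Complex.I * g * t) = c} with h0 | ⟨t₀, ht₀⟩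
      · rw [h0]
        exact countable_empty
      · refine (countable_range fun n : ℤ => t₀ + n * Real.pi / g).mono ?_
        intro t ht
        have e : Complex.exp (2 * Complex.I * g * t) = Complex.exp (2 * Complex.I * g * t₀) := by
          have h1 : Complex.exp (2 * Complex.I * g * t) = c := ht
          have h2 : Complex.exp (2 * Complex.I * g * t₀) = c := ht₀
          rw [h1, h2]
        obtain ⟨n, hn⟩ := Complex.exp_eq_exp_iff_exists_int.1 e
        refine ⟨n, ?_⟩
        have h3 : (2 * Complex.I) * ((g * t : ℝ) : ℂ) = (2 * Complex.I) * ((g * t₀ + n * Real.pi : ℝ) : ℂ) := by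
          push_cast
          linear_combination hn
        have h4 := mul_left_cancel₀ (by simp [Complex.I_ne_zero]) h3
        have h5 : g * t = g * t₀ + n * Real.pi := by exact_mod_cast h4
        have hg0 : g ≠ 0 := by linarith
        simp only
        field_simp
        linarith
    have hz : volume {t : ℝ | Complex.exp (2 * Complex.I * g * t) = c} = 0 :=
      hcount.measure_zero volume
    have h6 : ∀ᵐ t ∂(volume.restrict E), False := by
      have h7 : ∀ᵐ t ∂(volume.restrict E), t ∉ {t : ℝ | Complex.exp (2 * Complex.I * g * t) = c} := by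
        refine ae_restrict_of_ae ?_
        exact measure_eq_zero_iff_ae_notMem.1 hz
      filter_upwards [h, h7] with t h8 h9
      exact h9 h8
    have h10 : volume.restrict E = 0 := by
      have := ae_iff.1 h6
      simpa using this
    have h11 : volume.restrict E univ = 0 := by rw [h10]; rfl
    rw [Measure.restrict_apply_univ] at h11
    exact hp.ne' h11
  · rw [mul_one, measureReal_restrict_apply_univ] at h
    exact h

lemma cont (E : Set ℝ) (hV : volume E ≠ ⊤) :
    Continuous fun g : ℝ => ∫ t in E, Complex.exp (2 * Complex.I * g * t) := by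
  have : IsFiniteMeasure (volume.restrict E) := ⟨by
    rw [Measure.restrict_apply_univ]
    exact hV.lt_top⟩
  refine continuous_of_dominated (bound := fun _ => 1) ?_ ?_ (integrable_const _) ?_
  · intro g
    exact Continuous.aestronglyMeasurable (by fun_prop)
  · intro g
    exact Eventually.of_forall fun t => (norm_exp_one g t).le
  · exact Eventually.of_forall fun t => by fun_prop

lemma tend (E : Set ℝ) (hE : MeasurableSet E) :
    Tendsto (fun g : ℝ => ∫ t in E, Complex.exp (2 * Complex.I * g * t)) atTop (𝓝 0) := by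
  have h := Real.tendsto_integral_exp_smul_cocompact (E.indicator fun _ => (1 : ℂ))
  have h1 : Tendsto (fun g : ℝ => -(g / Real.pi)) atTop (cocompact ℝ) := by
    refine Tendsto.mono_right ?_ atBot_le_cocompact
    exact tendsto_neg_atTop_atBot.comp (tendsto_id.atTop_div_const Real.pi_pos)
  refine (h.comp h1).congr fun g => ?_
  rw [← integral_indicator hE]
  refine integral_congr_ae (Eventually.of_forall fun t => ?_)
  simp only [indicator]
  split_ifs with ht
  · rw [Circle.smul_def, Real.fourierChar_apply, smul_eq_mul, mul_one]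
    congr 1
    have hpi : (Real.pi : ℂ) ≠ 0 := by exact_mod_cast Real.pi_ne_zero
    push_cast
    field_simp
  · simp

theorem gap (E : Set ℝ) (hE : MeasurableSet E) (hb : Bornology.IsBounded E) (hp : 0 < volume E) :
    ∃ c : ℝ, 0 < c ∧ ∀ g : ℝ, 1 ≤ g →
      ‖∫ t in E, Complex.exp (2 * Complex.I * g * t)‖ ≤ (volume E).toReal - c := by
  have hV : volume E ≠ ⊤ := hb.measure_lt_top.ne
  have hV0 : 0 < (volume E).toReal := ENNReal.toReal_pos hp.ne' hV
  have h1 := (tend E hE).norm
  rw [norm_zero] at h1
  obtain ⟨G, hG⟩ := eventually_atTop.1 (h1.eventually (gt_mem_nhds (half_pos hV0)))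
  obtain ⟨g₀, hg₀, hmax⟩ := (isCompact_Icc (a := (1 : ℝ)) (b := max G 1)).exists_isMaxOn
    ⟨1, le_rfl, le_max_right _ _⟩ (cont E hV).norm.continuousOn
  have hs := strict E hV hp g₀ hg₀.1
  refine ⟨min ((volume E).toReal / 2) ((volume E).toReal -
    ‖∫ t in E, Complex.exp (2 * Complex.I * g₀ * t)‖), lt_min (half_pos hV0) (sub_pos.2 hs), ?_⟩
  intro g hg
  by_cases hgG : G ≤ g
  · have h2 := hG g hgG
    have h3 := min_le_left ((volume E).toReal / 2) ((volume E).toReal -
      ‖∫ t in E, Complex.exp (2 * Complex.I * g₀ * t)‖)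
    linarith
  · have h2 := hmax (show g ∈ Icc (1 : ℝ) (max G 1) from
      ⟨hg, (le_of_lt (not_le.1 hgG)).trans (le_max_left _ _)⟩)
    change ‖∫ t in E, Complex.exp (2 * Complex.I * g * t)‖ ≤
      ‖∫ t in E, Complex.exp (2 * Complex.I * g₀ * t)‖ at h2
    have h3 := min_le_right ((volume E).toReal / 2) ((volume E).toReal -
      ‖∫ t in E, Complex.exp (2 * Complex.I * g₀ * t)‖)
    linarith

end Pool.Agent.H83.DR
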