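import Pool.Agent.H60.DR.Base

/-!
# The size of the parameters (piece 4)
-/

set_option autoImplicit false

open Filter Topology Set

namespace Pool.Agent.H83.DR

open Pool.Agent.H60.DR

lemma key (D d : ℝ) (hd : 0 < d) (hd1 : d ≤ 1 / 100) (hD : 1 ≤ D * d) :
    (48 / 100 * D ≤ aa d + (D * d - aa d ^ 2 + d * aa d) / (2 * d * (1 - 2 * d)) - d ^ 2 ∧
      aa d + (D * d - aa d ^ 2 + d * aa d) / (2 * d * (1 - 2 * d)) - d ^ 2 ≤ 52 / 100 * D) ∧
    48 / 100 * D ≤ (D * d - aa d ^ 2 + d * aa d) / (2 * d * (1 - 2 * d)) ∧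
      (D * d - aa d ^ 2 + d * aa d) / (2 * d * (1 - 2 * d)) ≤ 52 / 100 * D := by
  have h4 : 0 < 1 - 4 * d := by linarith
  have h2 : 0 < 2 * d * (1 - 2 * d) := by
    have : 0 < 1 - 2 * d := by linarith
    positivity
  have ha0 : aa d ≤ 0 := by
    unfold aa
    rw [div_le_iff₀ h4]
    nlinarith [sq_nonneg d]
  have ha1 : -(21 / 10 * d ^ 2) ≤ aa d := by
    unfold aa
    rw [le_div_iff₀ h4]
    nlinarith [sq_nonneg d, mul_nonneg (sq_nonneg d) hd.le]
  have hD100 : 100 ≤ D := by nlinarith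
  have hd2 : d ^ 2 ≤ 1 / 10000 := by nlinarith
  have hd2' : 0 ≤ d ^ 2 := sq_nonneg d
  have ha2 : aa d ^ 2 ≤ 1 / 1000 := by nlinarith
  have hda : -(1 / 1000) ≤ d * aa d := by nlinarith
  have hda0 : d * aa d ≤ 0 := by nlinarith
  have hup : (D * d - aa d ^ 2 + d * aa d) / (2 * d * (1 - 2 * d)) ≤ 52 / 100 * D := by
    rw [div_le_iff₀ h2]
    have h5 : 0 ≤ aa d ^ 2 := sq_nonneg _
    have h6 : 52 / 100 * D * (2 * d * (1 - 2 * d)) = D * d * (104 / 100 * (1 - 2 * d)) := by ring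
    rw [h6]
    have h7 : (1 : ℝ) ≤ 104 / 100 * (1 - 2 * d) := by linarith
    nlinarith
  have hlow : 49 / 100 * D ≤ (D * d - aa d ^ 2 + d * aa d) / (2 * d * (1 - 2 * d)) := by
    rw [le_div_iff₀ h2]
    have h6 : 49 / 100 * D * (2 * d * (1 - 2 * d)) = D * d * (98 / 100 * (1 - 2 * d)) := by ring
    rw [h6]
    have h7 : 98 / 100 * (1 - 2 * d) ≤ 98 / 100 := by linarith
    nlinarith
  refine ⟨⟨?_, ?_⟩, ?_, hup⟩
  · nlinarith
  · nlinarith
  · linarith

lemma g_sq {α d : ℝ} (hd : 0 < d) : gg α d ^ 2 = d ^ (-(2 * α)) * d := by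
  unfold gg
  rw [← Real.rpow_natCast, ← Real.rpow_mul hd.le]
  have h1 : (1 - 2 * α) / 2 * ((2 : ℕ) : ℝ) = -(2 * α) + 1 := by push_cast; ring
  rw [h1, Real.rpow_add hd, Real.rpow_one]

lemma all {α d : ℝ} (hα : 1 / 2 ≤ α) (hd : 0 < d) (hd1 : d ≤ 1 / 100) :
    1 ≤ d ^ (-(2 * α)) * d ∧
    48 / 100 * d ^ (-(2 * α)) ≤ mu α d ∧ mu α d ≤ 52 / 100 * d ^ (-(2 * α)) ∧
    48 / 100 * d ^ (-(2 * α)) ≤ ww α d ∧ ww α d ≤ 52 / 100 * d ^ (-(2 * α)) := by
  have h0 : 1 ≤ d ^ (-(2 * α)) * d := by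
    have h1 : d ^ (-(2 * α)) * d = d ^ (-(2 * α) + 1) := by
      rw [Real.rpow_add hd, Real.rpow_one]
    rw [h1]
    exact Real.one_le_rpow_of_pos_of_le_one_of_nonpos hd (by linarith) (by linarith)
  have h2 := key (d ^ (-(2 * α))) d hd hd1 h0
  unfold mu ww
  rw [g_sq hd]
  exact ⟨h0, h2.1.1, h2.1.2, h2.2.1, h2.2.2⟩

theorem stPar : StPar := by
  intro α hα
  have hdn : ∀ n, 0 < dn n ∧ dn n ≤ 1 / 100 := by
    intro n
    unfold dn
    have h1 : (0 : ℝ) ≤ n := Nat.cast_nonneg n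
    constructor
    · positivity
    · rw [inv_eq_one_div]
      apply one_div_le_one_div_of_le (by norm_num)
      linarith
  have hA := fun n => all hα (hdn n).1 (hdn n).2
  have hD : ∀ n : ℕ, 100 * ((n : ℝ) + 1) ≤ (dn n) ^ (-(2 * α)) := by
    intro n
    have h1 := (hA n).1
    have h2 : dn n * (100 * ((n : ℝ) + 1)) = 1 := by
      unfold dn
      have : (0 : ℝ) ≤ n := Nat.cast_nonneg n
      exact inv_mul_cancel₀ (by positivity)
    have h3 : 0 < 100 * ((n : ℝ) + 1) := by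
      have : (0 : ℝ) ≤ n := Nat.cast_nonneg n
      positivity
    calc 100 * ((n : ℝ) + 1) = 1 * (100 * ((n : ℝ) + 1)) := (one_mul _).symm
      _ ≤ ((dn n) ^ (-(2 * α)) * dn n) * (100 * ((n : ℝ) + 1)) :=
          mul_le_mul_of_nonneg_right h1 h3.le
      _ = (dn n) ^ (-(2 * α)) * (dn n * (100 * ((n : ℝ) + 1))) := by ring
      _ = _ := by rw [h2, mul_one]
  have hmu : ∀ n : ℕ, 48 * ((n : ℝ) + 1) ≤ mus α n := by
    intro n
    have h1 := (hA n).2.1
    have h2 := hD n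
    unfold mus
    linarith
  refine ⟨?_, ?_, ?_, ?_, ?_, ?_⟩
  · refine tendsto_atTop_mono (f := fun n : ℕ => (n : ℝ)) (fun n => ?_) tendsto_natCast_atTop_atTop
    have h1 := hmu n
    have : (0 : ℝ) ≤ n := Nat.cast_nonneg n
    linarith
  · intro n
    have h1 := hmu n
    have : (0 : ℝ) ≤ n := Nat.cast_nonneg n
    linarith
  · intro n
    unfold gs gg
    exact Real.one_le_rpow_of_pos_of_le_one_of_nonpos (hdn n).1 (by linarith [(hdn n).2])
      (by linarith)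
  · intro n
    unfold gs mus
    rw [g_sq (hdn n).1]
    have h1 := (hA n).2.1
    have h2 : 0 < (dn n) ^ (-(2 * α)) := Real.rpow_pos_of_pos (hdn n).1 _
    nlinarith [(hdn n).2, (hdn n).1]
  · intro n
    unfold gs mus
    rw [g_sq (hdn n).1]
    obtain ⟨-, h1, h2, -, -⟩ := hA n
    have hd := (hdn n).1
    have hα0 : 0 < α := by linarith
    set D : ℝ := (dn n) ^ (-(2 * α)) with hDdef
    have hDpos : 0 < D := Real.rpow_pos_of_pos hd _
    have hmupos : 0 < mu α (dn n) := by linarith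
    -- upper bound for `μ^(-1/(2α))`
    have h3 : (mu α (dn n)) ^ (-(1 / (2 * α))) ≤ (48 / 100 * D) ^ (-(1 / (2 * α))) :=
      Real.rpow_le_rpow_of_nonpos (by positivity) h1 (by
        have : 0 < 1 / (2 * α) := by positivity
        linarith)
    have h4 : (48 / 100 * D) ^ (-(1 / (2 * α))) =
        (48 / 100 : ℝ) ^ (-(1 / (2 * α))) * dn n := by
      rw [Real.mul_rpow (by norm_num) hDpos.le, hDdef, ← Real.rpow_mul hd.le]
      congr 1
      have h5 : -(2 * α) * -(1 / (2 * α)) = 1 := by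
        field_simp
      rw [h5, Real.rpow_one]
    have h6 : (48 / 100 : ℝ) ^ (-(1 / (2 * α))) ≤ (48 / 100 : ℝ) ^ (-(1 : ℝ)) := by
      apply Real.rpow_le_rpow_of_exponent_ge (by norm_num) (by norm_num)
      have h7 : 1 / (2 * α) ≤ 1 := by
        rw [div_le_one (by positivity)]
        linarith
      linarith
    have h8 : (48 / 100 : ℝ) ^ (-(1 : ℝ)) = 100 / 48 := by
      rw [Real.rpow_neg_one]
      norm_num
    have h9 : (mu α (dn n)) ^ (-(1 / (2 * α))) ≤ 100 / 48 * dn n := by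
      rw [h4] at h3
      rw [h8] at h6
      exact h3.trans (mul_le_mul_of_nonneg_right h6 hd.le)
    rw [le_div_iff₀ hmupos]
    calc 1 / 2 * (mu α (dn n)) ^ (-(1 / (2 * α))) * mu α (dn n)
        ≤ 1 / 2 * (100 / 48 * dn n) * (52 / 100 * D) := by
          have h10 : 0 ≤ (mu α (dn n)) ^ (-(1 / (2 * α))) := Real.rpow_nonneg hmupos.le _
          gcongr
      _ ≤ D * dn n := by
          have : 0 < D * dn n := by positivity
          nlinarith
  · intro n
    obtain ⟨-, h1, h2, h3, h4⟩ := hA n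
    have hDpos : 0 < (dn n) ^ (-(2 * α)) := Real.rpow_pos_of_pos (hdn n).1 _
    unfold mus
    refine ⟨by linarith, by linarith, by linarith⟩

end Pool.Agent.H83.DR
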